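import Pool.Agent.R498.AU.A6
import Pool.Agent.Y627.PT.Eta

set_option autoImplicit false

/-!
# Parity patterns of `p(m n + i)` against finite automata and modular sequences (MP_ebc808_nt)

Let `𝓜` be a finite set of positive integers; call `m ∈ 𝓜` active if `m / g ≢ m' / g (mod 24)`,
`g = gcd(m, m')`, for all `m' ∈ 𝓜`, `m' ≠ m` (for `𝓜 = {1, …, 24}` and for sets of numbers
`2 ^ a 3 ^ b` all `m` are active). Let `F_1, …, F_k` be eta-quotients `∏ f_d ^ (e_d)` with
`∑ d e_d ≡ 0 (mod 24)` (for instance `f_8 ^ 3`, whose coefficient at `n` is odd exactly if `n + 1` is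
an odd square), with coefficients `a_j(n)`, let `M ≥ 1` and `Q ≥ 0`. There is a constant `C`,
depending only on `𝓜`, the `F_j`, `M` and `Q`, such that the following holds for all sums

  `W(n) = ∑_{m ∈ 𝓜} ∑_{i < K} c(m, i) p(m n + i) + ∑_j ∑_{i < K} b(j, i) a_j(n + i) +
    ∑_z u_z(n + t_z)` modulo 2, `n ≡ ρ (mod M)`,

in which the `u_z` are arbitrarily many sequences, each computed by a finite automaton with at most
`Q` states reading the binary digits of its argument (in one of the two directions), `t_z < K`, and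
some `c(m, i) ≠ 0` with `m` active belongs to a class `m ρ + i` modulo `m M` where `p` is not
identically even (this is automatic by Radu's theorem; no condition if `m M` is a power of 2): `W`
takes both values on the `n ≡ ρ (mod M)` in every interval `[A, C (A + K)]`.

Example: for every `Q` there is a `C` such that every automaton with at most `Q` states, and every sum
modulo 2 of the outputs of such automata, predicts the parity of `p(n)` wrongly for some `n` and
correctly for some `n` in every interval `[A, C (A + 1)]`.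

The method is described in `Results/MP_a3366f_nt/AutomaticSequences`.
-/

namespace Pool.Agent.Results.MP_ebc808_nt.AutomaticSequences

open PowerSeries

/-- `f_d = ∏_{i ≥ 1} (1 - q ^ (d i))`: Mathlib's series `pentagonalSeries ℤ = ∏_{i ≥ 1} (1 - q ^ i)`
in the variable `q ^ d` -/
noncomputable def f (d : ℕ) : ℤ⟦X⟧ :=
  PowerSeries.mk fun n => if d ∣ n then coeff (n / d) (pentagonalSeries ℤ) else 0

/-- `F = ∏_{d ∈ D} f_d ^ (u_d - v_d)`, an eta-quotient, and `s = ∑_{d ∈ D} d (u_d - v_d)` -/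
def IsEtaQuotient (F : ℤ⟦X⟧) (s : ℤ) : Prop :=
  ∃ (D : Finset ℕ) (u v : ℕ → ℕ), 0 ∉ D ∧ F * ∏ d ∈ D, f d ^ v d = ∏ d ∈ D, f d ^ u d ∧
    s = ∑ d ∈ D, (d : ℤ) * ((u d : ℤ) - v d)

/-- `u(n)` is computed by a finite automaton with at most `Q` states (transition function `δ`, initial
state `q`, output function `h`) which reads the binary digits of `n` (`Nat.bits n`, least significant
digit first, empty for `n = 0`), starting from the least significant one or starting from the most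
significant one -/
def Automatic (Q : ℕ) (u : ℕ → ZMod 2) : Prop :=
  ∃ (s : ℕ) (δ : Fin s → Bool → Fin s) (q : Fin s) (h : Fin s → ZMod 2), s ≤ Q ∧
    ((∀ n, u n = h (n.bits.foldl δ q)) ∨ (∀ n, u n = h (n.bits.reverse.foldl δ q)))

theorem result (𝓜 : Finset ℕ) (h0 : 0 ∉ 𝓜) (k : ℕ) (F : Fin k → ℤ⟦X⟧) (s : Fin k → ℤ)
    (hF : ∀ j, IsEtaQuotient (F j) (s j)) (h24 : ∀ j, (24 : ℤ) ∣ s j) (M : ℕ) (hM : 0 < M) (Q : ℕ) :
    ∃ C : ℕ, ∀ (K : ℕ) (c : ℕ → ℕ → ZMod 2) (b : Fin k → ℕ → ZMod 2) (ρ : ℕ),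
      (∃ m ∈ 𝓜, (∀ m' ∈ 𝓜, m ≠ m' → ¬ m / Nat.gcd m m' ≡ m' / Nat.gcd m m' [MOD 24]) ∧
        ∃ i < K, c m i ≠ 0 ∧ ((∃ e, m * M = 2 ^ e) ∨
          ∃ N, N ≡ m * ρ + i [MOD m * M] ∧ Odd (Fintype.card (Nat.Partition N)))) →
      ∀ (L : ℕ) (u : Fin L → ℕ → ZMod 2) (t : Fin L → ℕ), (∀ z, Automatic Q (u z)) →
        (∀ z, t z < K) →
      ∀ (κ : ZMod 2) (A : ℕ), ∃ n, A ≤ n ∧ n ≤ C * (A + K) ∧ n ≡ ρ [MOD M] ∧
        ∑ m ∈ 𝓜, ∑ i ∈ Finset.range K,
            c m i * (Fintype.card (Nat.Partition (m * n + i)) : ZMod 2) +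
          ∑ j, ∑ i ∈ Finset.range K, b j i * ((coeff (n + i) (F j) : ℤ) : ZMod 2) +
          ∑ z, u z (n + t z) = κ := by
  classical
  have hP : ∀ n, PowerSeries.coeff n Pool.Agent.TH693.PP.P =
      (Fintype.card (Nat.Partition n) : ZMod 2) := fun n => PowerSeries.coeff_mk _ _
  have hpos : ∀ x : {x // x ∈ 𝓜}, 0 < (x : ℕ) := fun x =>
    Nat.pos_of_ne_zero fun h => h0 (h ▸ x.2)
  have hS : ∀ j, Pool.Agent.Y627.PT.Sec ((F j).map (Int.castRingHom (ZMod 2))) (-(s j)) := by
    intro j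
    obtain ⟨D, u, v, hD, hrel, hs⟩ := hF j
    rw [hs]
    exact Pool.Agent.Y627.PT.sec_eta D u v hD (F j) hrel
  obtain ⟨C, hC⟩ := Pool.Agent.R498.AU.main_aut (Y := {x // x ∈ 𝓜} ⊕ Fin k)
    (Sum.elim (fun _ => Pool.Agent.TH693.PP.P) (fun j => (F j).map (Int.castRingHom (ZMod 2))))
    (Sum.elim (fun _ => 1) (fun j => -(s j)))
    (by
      rintro (x | j)
      · exact Pool.Agent.Y627.PT.sec_P
      · exact hS j)
    (Sum.elim (fun x => (x : ℕ)) (fun _ => 1))
    (by
      rintro (x | j)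
      · exact hpos x
      · exact one_pos) M hM Q
  refine ⟨C, fun K c b ρ hc L u t hu ht κ A => ?_⟩
  obtain ⟨n, h1, h2, h3, h4⟩ := hC K
    (Sum.elim (fun x i => c x i) (fun j i => b j i)) ρ (by
    obtain ⟨m, hm, hact, i, hi, hci, hor⟩ := hc
    refine ⟨Sum.inl ⟨m, hm⟩, by simp only [Sum.elim_inl]; norm_num, ?_, i, hi, hci, ?_⟩
    · rintro (y | j) hxy h
      · simp only [Sum.elim_inl] at h
        apply hact y y.2 (fun h => hxy (congrArg Sum.inl (Subtype.ext h)))
        rw [one_mul, one_mul] at h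
        have h1 := (Int.modEq_iff_dvd).2 h
        exact (Int.natCast_modEq_iff).1 h1
      · simp only [Sum.elim_inl, Sum.elim_inr, Nat.gcd_one_right, Nat.div_one] at h
        obtain ⟨w, hw⟩ := h24 j
        obtain ⟨v, hv⟩ := h
        rw [hw] at hv
        have hv' : (1 : ℤ) = 24 * (v - w * m) := by linear_combination hv
        omega
    · simp only [Sum.elim_inl]
      rcases hor with ⟨k, hk⟩ | ⟨N, hN, hodd⟩
      · rw [hk]
        have := Pool.Agent.TH693.QQ.proj_ne (t := 1) (k := k) (r := m * ρ + i) odd_one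
        rwa [pow_one] at this
      · intro h5
        have h6 := congrArg (PowerSeries.coeff N) h5
        rw [Pool.Agent.TH693.QQ.proj, PowerSeries.coeff_mk, map_zero,
          if_pos (show N % (m * M) = (m * ρ + i) % (m * M) from hN), hP] at h6
        exact (ZMod.natCast_ne_zero_iff_odd.2 hodd) h6) L u t hu ht κ A
  refine ⟨n, h1, h2, h3, ?_⟩
  rw [← h4, Fintype.sum_sum_type]
  simp only [Sum.elim_inl, Sum.elim_inr, one_mul]
  congr 1
  congr 1
  rw [Finset.sum_coe_sort 𝓜 (fun m => ∑ i ∈ Finset.range K,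
    c m i * PowerSeries.coeff (m * n + i) Pool.Agent.TH693.PP.P)]
  refine Finset.sum_congr rfl fun m _ => Finset.sum_congr rfl fun i _ => ?_
  rw [hP]

end Pool.Agent.Results.MP_ebc808_nt.AutomaticSequences
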