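import Pool.Agent.R836.PP.FinB

set_option autoImplicit false

/-!
# Counting the parity changes of the partition function (MP_ebc808_nt)

For every `h ≥ 1` and every `K`, for all large `x`, at least `√x (log log x) ^ K / log x` of the
`n ≤ x` satisfy: `p n` is even and `p (n + h)` is odd; and at least as many satisfy: `p n` is odd and
`p (n + h)` is even.

Method. By the counting theorem for linear patterns (see the hand-in `PatternCounts`; it is proved in
`Pool.Agent.R836.PP`) the sum `p n + p (n + h)` is odd for at least
`√x (log log x) ^ (K + 1) / log x` of the `n ≤ x`. The numbers of the changes in the two directions up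
to `x` differ by at most `h` (telescoping sum).
-/

namespace Pool.Agent.Results.MP_ebc808_nt.ParityChanges

open Pool.Agent.R836.PP PowerSeries

theorem result (h : ℕ) (hh : 0 < h) (K : ℕ) : ∃ x0 : ℕ, ∀ x : ℕ, x0 ≤ x →
    √x * Real.log (Real.log x) ^ K / Real.log x ≤ (((Finset.range (x + 1)).filter fun n =>
      Even (Fintype.card (Nat.Partition n)) ∧
      Odd (Fintype.card (Nat.Partition (n + h)))).card : ℝ) ∧
    √x * Real.log (Real.log x) ^ K / Real.log x ≤ (((Finset.range (x + 1)).filter fun n =>
      Odd (Fintype.card (Nat.Partition n)) ∧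
      Even (Fintype.card (Nat.Partition (n + h)))).card : ℝ) := by
  obtain ⟨X0, hX0⟩ := transitions_all 1 (by norm_num) h hh K
  refine ⟨X0, fun x hx => ?_⟩
  have h1 := hX0 x hx
  simp only [pow_one, coeff_mk, ZMod.natCast_eq_zero_iff_even, ZMod.natCast_eq_one_iff_odd] at h1
  exact h1

end Pool.Agent.Results.MP_ebc808_nt.ParityChanges
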