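import Pool.Agent.R836.PP.EvenC

set_option autoImplicit false

/-!
# Counting linear parity patterns of the partition function (MP_ebc808_nt)

Let `p n` be the number of partitions of `n`. For every `L`, every nonzero pattern
`c : Fin (L + 1) → ZMod 2` and every residue class modulo a power of 2, the number of the `n ≤ x` in
that class with `∑ c i * p (n + i)` even is at least `C √x` for every `C` and all large `x`, and the
number of those with an odd sum is at least `√x (log log x) ^ K / log x` for every `K` and all
large `x`.

Method. Modulo 2 let `f = ∏ (1 - X ^ i)`, `F = 1 / f`, and let `D` be the series with the exponents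
`(2 k + 1) ^ 2`, the reduction of `Δ`. For large `e` with `2 ^ e ≡ 1 (mod 3)` put
`m = (2 ^ e - 1) / 3`, an odd number; then `F * f ^ (2 ^ e) = f ^ (3 m)`. The coefficients of
`f ^ (3 m)` are those of `D ^ m` at the exponents `8 n + m`, and `f ^ (2 ^ e)` is supported on the
`2 ^ e * g`, `g` a generalized pentagonal number. By the theory of Nicolas and Serre (in the starting
files `Pool.Agent.H307R2.OP`) the Hecke operators at the odd primes are nilpotent on the span of the
`D ^ m` modulo 2, and there is a product of prescribed numbers of Hecke operators at primes `3` and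
`5` modulo 8 which takes `D ^ m` to `D`. This gives, in every class that the pattern needs (by the
Chinese remainder theorem all terms of the pattern but one are made zero: they are divided exactly
once by more distinct primes than the index of nilpotency), many exponents with coefficient 1:
products of a large prescribed number of distinct primes. Their number up to `x` exceeds
`x (log log x) ^ K / log x`. Each of these `n` is a sum of a value 1 of the pattern of `F` and of an
exponent of `f ^ (2 ^ e)`, of which there are `O(√x)`. For the value 0: the coefficients of `D ^ m` have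
density 0, the number of exponents `≤ n` of `f ^ (2 ^ e)` is odd on a positive proportion, independent
of `e`, and the number of the exponents is at most `C √(x / 2 ^ e)`.
-/

namespace Pool.Agent.Results.MP_ebc808_nt.PatternCounts

open Pool.Agent.R836.PP PowerSeries

private theorem vals_eq (b : ℕ) {L : ℕ} (c : Fin (L + 1) → ZMod 2) (κ : ZMod 2) (ρ x : ℕ) :
    (vals c ((PowerSeries.mk fun n =>
      (Fintype.card (Nat.Partition n) : ZMod 2)) ^ 1) κ (2 ^ b) ρ x) =
      (Finset.range (x + 1)).filter fun n => n % 2 ^ b = ρ % 2 ^ b ∧
        ∑ i : Fin (L + 1), c i * (Fintype.card (Nat.Partition (n + i)) : ZMod 2) = κ := by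
  unfold vals pat
  ext n
  simp only [Finset.mem_filter, pow_one, coeff_mk]

theorem result (b L : ℕ) (c : Fin (L + 1) → ZMod 2) (hc : c ≠ 0) (ρ : ℕ) :
    (∀ C : ℝ, ∃ x0 : ℕ, ∀ x : ℕ, x0 ≤ x →
      C * √x ≤ (((Finset.range (x + 1)).filter fun n => n % 2 ^ b = ρ % 2 ^ b ∧
        ∑ i : Fin (L + 1), c i * (Fintype.card (Nat.Partition (n + i)) : ZMod 2) = 0).card : ℝ)) ∧
    (∀ K : ℕ, ∃ x0 : ℕ, ∀ x : ℕ, x0 ≤ x →
      √x * Real.log (Real.log x) ^ K / Real.log x ≤
        (((Finset.range (x + 1)).filter fun n => n % 2 ^ b = ρ % 2 ^ b ∧
          ∑ i : Fin (L + 1), c i * (Fintype.card (Nat.Partition (n + i)) : ZMod 2) = 1).card : ℝ)) := by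
  refine ⟨fun C => ?_, fun K => ?_⟩
  · obtain ⟨X0, hX0⟩ := even_all 1 b (by norm_num) C c ρ
    refine ⟨X0, fun x hx => ?_⟩
    have h := hX0 x hx
    rw [vals_eq] at h
    exact h
  · obtain ⟨X0, hX0⟩ := odd_all 1 b (by norm_num) K c hc ρ
    refine ⟨X0, fun x hx => ?_⟩
    have h := hX0 x hx
    rw [vals_eq] at h
    exact h

end Pool.Agent.Results.MP_ebc808_nt.PatternCounts
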