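import Pool.Agent.R978.PD.E

set_option autoImplicit false

/-!
# Parity of the partition function with randomly deleted parts (MP_ebc808_nt)

Let `R` be a random set of positive integers, the events `a ∈ R` being independent and
`√(log a / a) ≤ P (a ∈ R) ≤ 1 - √(log a / a)` for all large `a` (so `R` may contain as few as about
`2 √(N log N)` of the integers up to `N` in the mean). Let `p_R n` be the number of partitions of `n`
with no part in `R`. Then, for every strictly increasing sequence `s` of natural numbers, almost surely
every word `w` of length `L` occurs in the parities of `p_R` at the places `s k, …, s k + L - 1` for a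
proportion `2 ^ (-L)` of the `k`.

Method. For `n ≤ 2 h + 1` a partition of `n` has at most one part `> h`; so, given the part of `R` in
`[1, h]`, the parity of `p_R n` is an affine function of the part of `R` in `(h, n]`, with coefficients
which are values of `p_R` at numbers `≤ h`. For a sum of values of `p_R` modulo 2 with the largest
argument `u`, the coefficient of the indicator of `a ∈ (h, u]` is a sum of values of `p_R`
with the largest argument `u - a`, thus it changes with the indicator of `u - a ∈ R`, whatever the
elements of `R` below `u - a` are. So it is 1 with probability `≥ σ` given the elements below `u - a`,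
and the bias of the sum is at most `(1 - 2 σ ^ 2) ^ (u / 2 - O(1)) = O(1 / u)`, `σ = √(log u / u)`.
The second moments of the sums over `k < x` of the signs are therefore `O(x)`.
-/

namespace Pool.Agent.Results.MP_ebc808_nt.RandomlyDeletedParts

open MeasureTheory ProbabilityTheory Filter Topology

/-- the number of partitions of `n` none of whose parts is in `R` -/
noncomputable def partitionsAvoiding (R : Set ℕ) (n : ℕ) : ℕ :=
  Nat.card {p : Nat.Partition n // ∀ a ∈ p.parts, a ∉ R}

theorem result {Ω : Type} [MeasurableSpace Ω] {P : Measure Ω} [IsProbabilityMeasure P]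
    (R : Ω → Set ℕ) (hm : ∀ a : ℕ, MeasurableSet {ω | a ∈ R ω})
    (hi : iIndepSet (fun a : ℕ => {ω | a ∈ R ω}) P)
    (hR : ∀ᶠ a : ℕ in atTop, √(Real.log a / a) ≤ P.real {ω | a ∈ R ω} ∧
      P.real {ω | a ∈ R ω} ≤ 1 - √(Real.log a / a))
    (s : ℕ → ℕ) (hs : StrictMono s) :
    ∀ᵐ ω ∂P, ∀ (L : ℕ) (w : Fin L → ZMod 2),
      Tendsto (fun x : ℕ => (((Finset.range x).filter fun k => ∀ i : Fin L,
        (partitionsAvoiding (R ω) (s k + i) : ZMod 2) = w i).card : ℝ) / x)
        atTop (𝓝 ((1 / 2) ^ L)) := by
  have h1 := Pool.Agent.R978.PD.main R hm hi hR (B := 1) (t := 1)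
    (by rw [PowerSeries.coeff_zero_eq_constantCoeff_apply, map_one]) odd_one hs
  filter_upwards [h1] with ω hω L w
  have h2 := hω L (fun i => if h : i < L then w ⟨i, h⟩ else 0)
  refine h2.congr fun x => ?_
  congr 2
  refine congrArg Finset.card (Finset.filter_congr fun k _ => ?_)
  constructor
  · intro H i
    have := H i i.2
    rw [Pool.Agent.R978.PD.cB_one, dif_pos i.2] at this
    exact this
  · intro H i hi
    rw [Pool.Agent.R978.PD.cB_one, dif_pos hi]
    exact H ⟨i, hi⟩

end Pool.Agent.Results.MP_ebc808_nt.RandomlyDeletedParts
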